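import Pool.Agent.MP_bae362_pr.Mg.Wasserman

/-!
The contamination model as a family dominated by a random closed set.
-/

set_option autoImplicit false
open MeasureTheory Set Filter Topology
open scoped ENNReal NNReal

namespace Pool.Agent.MP_bae362_pr

variable {E : Type*}

/-- The random set that is a point or the whole space. -/
def contSet (p : E × Bool) : Set E := if p.2 = true then univ else {p.1}

theorem contSet_false (x : E) : contSet (x, false) = {x} := by simp [contSet]

theorem contSet_true (x : E) : contSet (x, true) = univ := by simp [contSet]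

variable [MeasurableSpace E]

/-- The underlying probability measure. -/
noncomputable def contMeasure (ε : ℝ≥0) (P : Measure E) : Measure (E × Bool) :=
  (1 - ε) • P.map (fun x => (x, false)) + ε • P.map (fun x => (x, true))

theorem contMeasure_prob (ε : ℝ≥0) (hε : ε ≤ 1) (P : Measure E) [IsProbabilityMeasure P] :
    IsProbabilityMeasure (contMeasure ε P) := by
  have h1 : IsProbabilityMeasure (P.map (fun x => (x, false))) :=
    Measure.isProbabilityMeasure_map (by fun_prop)
  have h2 : IsProbabilityMeasure (P.map (fun x => (x, true))) :=
    Measure.isProbabilityMeasure_map (by fun_prop)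
  constructor
  simp only [contMeasure, Measure.add_apply, Measure.smul_apply, measure_univ, ENNReal.smul_def,
    smul_eq_mul, mul_one]
  rw [← ENNReal.coe_add, tsub_add_cancel_of_le hε, ENNReal.coe_one]

theorem lintegral_contMeasure (ε : ℝ≥0) (P : Measure E) (f : E × Bool → ℝ≥0∞) :
    ∫⁻ p, f p ∂(contMeasure ε P)
      = (1 - ε) • ∫⁻ x, f (x, false) ∂P + ε • ∫⁻ x, f (x, true) ∂P := by
  rw [contMeasure, lintegral_add_measure, lintegral_smul_measure, lintegral_smul_measure,
    (measurableEmbedding_prod_mk_right false).lintegral_map,
    (measurableEmbedding_prod_mk_right true).lintegral_map]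

theorem selection_subset_contamination (ε : ℝ≥0) (hε : ε < 1) (P : Measure E)
    [IsProbabilityMeasure P] :
    selectionLaws (contMeasure ε P) contSet ⊆ contamination ε P := by
  rintro _ ⟨ξ, hξ, hsel, rfl⟩
  have m1 : Measurable fun x : E => (x, false) := by fun_prop
  have m2 : Measurable fun x : E => (x, true) := by fun_prop
  refine ⟨P.map (ξ ∘ fun x => (x, true)),
    Measure.isProbabilityMeasure_map (hξ.comp m2).aemeasurable, ?_⟩
  have h1 : ∀ᵐ x ∂P, (ξ ∘ fun x => (x, false)) x = id x := by
    rw [contMeasure, ae_add_measure_iff] at hsel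
    have h2 := hsel.1
    rw [Measure.ae_smul_measure_iff (tsub_pos_of_lt hε).ne',
      (measurableEmbedding_prod_mk_right false).ae_map_iff] at h2
    filter_upwards [h2] with x hx
    simpa [contSet_false] using hx
  rw [contMeasure, Measure.map_add _ _ hξ, Measure.map_smul, Measure.map_smul,
    Measure.map_map hξ m1, Measure.map_map hξ m2, Measure.map_congr h1, Measure.map_id]

theorem contamination_dominated (ε : ℝ≥0) (P : Measure E) [IsProbabilityMeasure P]
    (L : E → ℝ≥0) : Dominated (contMeasure ε P) contSet L (contamination ε P) := by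
  rintro _ ⟨Q, hQ, rfl⟩ A hA
  have e : ∀ B, MeasurableSet B → ∫⁻ x in B, (L x : ℝ≥0∞) ∂((1 - ε) • P + ε • Q)
      = (1 - ε) • ∫⁻ x in B, L x ∂P + ε • ∫⁻ x in B, L x ∂Q := by
    intro B _
    rw [Measure.restrict_add, Measure.restrict_smul, Measure.restrict_smul, lintegral_add_measure,
      lintegral_smul_measure, lintegral_smul_measure]
  rw [e A hA, e _ hA.compl, lintegral_contMeasure, lintegral_contMeasure]
  simp only [← lintegral_indicator hA, ← lintegral_indicator hA.compl, ENNReal.smul_def,
    smul_eq_mul]
  constructor
  · refine add_le_add (mul_le_mul_right (lintegral_mono fun x => ?_) _) (mul_le_mul_right ?_ _)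
    · by_cases h : x ∈ A
      · rw [indicator_of_mem h]
        exact le_supL contSet L A (x, false) ⟨by simp [contSet_false], h⟩
      · simp [indicator_of_notMem h]
    · have e1 : ∀ x : E, supL contSet L A (x, true) = ⨆ y ∈ A, (L y : ℝ≥0∞) := by
        intro x; simp [supL, contSet_true]
      simp only [e1, lintegral_const, measure_univ, mul_one]
      calc ∫⁻ x, A.indicator (fun x => (L x : ℝ≥0∞)) x ∂Q
          ≤ ∫⁻ _x, (⨆ y ∈ A, (L y : ℝ≥0∞)) ∂Q := by
            refine lintegral_mono fun x => ?_
            by_cases h : x ∈ A
            · rw [indicator_of_mem h]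
              exact le_iSup₂ (f := fun y (_ : y ∈ A) => (L y : ℝ≥0∞)) x h
            · simp [indicator_of_notMem h]
        _ = _ := by simp
  · refine add_le_add (mul_le_mul_right (lintegral_mono fun x => ?_) _) (mul_le_mul_right ?_ _)
    · by_cases h : x ∈ A
      · have : (x, false) ∈ hit contSet A := ⟨x, by simp [contSet_false], h⟩
        simp [missL, this]
      · rw [indicator_of_mem (show x ∈ Aᶜ from h)]
        exact (missL_le _ _ _ _).trans (infL_le contSet L (x, false) (by simp [contSet_false]))
    · rcases A.eq_empty_or_nonempty with rfl | ⟨y, hy⟩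
      · have e1 : ∀ x : E, infL contSet L (x, true) = ⨅ y, (L y : ℝ≥0∞) := by
          intro x; simp [infL, contSet_true]
        simp only [missL_empty, e1, lintegral_const, measure_univ, mul_one, compl_empty,
          indicator_univ]
        calc ⨅ y, (L y : ℝ≥0∞) = ∫⁻ _x, (⨅ y, (L y : ℝ≥0∞)) ∂Q := by simp
          _ ≤ _ := lintegral_mono fun x => iInf_le _ x
      · have e1 : ∀ x : E, missL contSet L A (x, true) = 0 := by
          intro x
          have : (x, true) ∈ hit contSet A := ⟨y, by simp [contSet_true], hy⟩
          simp [missL, this]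
        simp [e1]

theorem contSet_random [TopologicalSpace E] [T2Space E] [BorelSpace E] :
    IsRandomClosedSet (contSet : E × Bool → Set E) := by
  constructor
  · rintro ⟨x, b⟩
    cases b
    · rw [contSet_false]; exact isClosed_singleton
    · rw [contSet_true]; exact isClosed_univ
  · intro K hK
    have e : {ω : E × Bool | (contSet ω ∩ K).Nonempty}
        = K ×ˢ {false} ∪ {_x | K.Nonempty} ×ˢ {true} := by
      ext ⟨x, b⟩
      cases b <;> simp [contSet_false, contSet_true]
    rw [e]
    exact (hK.measurableSet.prod (measurableSet_singleton _)).union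
      ((MeasurableSet.const _).prod (measurableSet_singleton _))

end Pool.Agent.MP_bae362_pr
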