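import Pool.Agent.MP_bae362_pr.Defs
import Mathlib

-- part MP_bae362_pr.Cap
section

/-!
Choquet capacitability for the capacity functional of a random closed set, and measurable
selections.
-/

set_option autoImplicit false
open MeasureTheory Set Filter Topology
open scoped ENNReal NNReal

namespace Pool.Agent.MP_bae362_pr

variable {Ω E : Type*}

/-- The event that `X` meets `A`. -/
def hit (X : Ω → Set E) (A : Set E) : Set Ω := {ω | (X ω ∩ A).Nonempty}

theorem hit_mono (X : Ω → Set E) {A B : Set E} (h : A ⊆ B) : hit X A ⊆ hit X B :=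
  fun _ hω => hω.mono (inter_subset_inter_right _ h)

theorem hit_iUnion {ι : Sort*} (X : Ω → Set E) (A : ι → Set E) :
    hit X (⋃ i, A i) = ⋃ i, hit X (A i) := by
  ext ω
  simp [hit, inter_iUnion, nonempty_iUnion]

theorem analytic_of_measurable [TopologicalSpace E] [T2Space E] [LocallyCompactSpace E]
    [SecondCountableTopology E] [MeasurableSpace E] [BorelSpace E] {B : Set E}
    (hB : MeasurableSet B) : AnalyticSet B := by
  let _ := TopologicalSpace.metrizableSpaceMetric E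
  have e : B = ⋃ n, ((↑) : compactCovering E n → E) '' ((↑) ⁻¹' B) := by
    simp only [Subtype.image_preimage_coe]
    rw [← iUnion_inter, iUnion_compactCovering, univ_inter]
  rw [e]
  apply AnalyticSet.iUnion
  intro n
  have : CompactSpace (compactCovering E n) :=
    isCompact_iff_compactSpace.mp (isCompact_compactCovering E n)
  exact (hB.preimage measurable_subtype_coe).analyticSet.image_of_continuous
    continuous_subtype_val

theorem baire_approx (n : ℕ → ℕ) (V : Set (ℕ → ℕ)) (hV : IsOpen V)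
    (h : {x | ∀ i, x i ≤ n i} ⊆ V) : ∃ k, {x | ∀ i < k, x i ≤ n i} ⊆ V := by
  by_contra hcon
  push Not at hcon
  choose x hx using fun k => not_subset.mp (hcon k)
  have hK : IsCompact {x : ℕ → ℕ | ∀ i, x i ≤ n i} := by
    have : {x : ℕ → ℕ | ∀ i, x i ≤ n i} = Set.pi univ fun i => Iic (n i) := by
      ext x; simp [Pi.le_def]
    rw [this]
    exact isCompact_univ_pi fun i => (finite_Iic _).isCompact
  obtain ⟨y, hy, φ, hφ, hlim⟩ := hK.tendsto_subseq (x := fun k i => min (x k i) (n i))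
    (fun k i => min_le_right _ _)
  have hlim2 : Tendsto (fun k => x (φ k)) atTop (𝓝 y) := by
    rw [tendsto_pi_nhds] at hlim ⊢
    intro i
    refine (hlim i).congr' ?_
    filter_upwards [eventually_gt_atTop i] with k hk
    exact min_eq_left ((hx (φ k)).1 i (lt_of_lt_of_le hk (hφ.id_le k)))
  obtain ⟨k, hk⟩ := (hlim2.eventually (hV.mem_nhds (h hy))).exists
  exact (hx (φ k)).2 hk

theorem baire_choice (I : Set (ℕ → ℕ) → ℝ≥0∞)
    (hI : ∀ S : ℕ → Set (ℕ → ℕ), Monotone S → I (⋃ m, S m) = ⨆ m, I (S m)) (c : ℝ≥0∞)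
    (hc : c < I univ) : ∃ n : ℕ → ℕ, ∀ k, c < I {x | ∀ i < k, x i ≤ n i} := by
  have step : ∀ (k : ℕ) (b : ℕ → ℕ), ∃ m, c < I {x | ∀ i < k, x i ≤ b i} →
      c < I {x | ∀ i < k + 1, x i ≤ Function.update b k m i} := by
    intro k b
    by_cases h : c < I {x | ∀ i < k, x i ≤ b i}
    · have e : {x : ℕ → ℕ | ∀ i < k, x i ≤ b i}
          = ⋃ m, {x | (∀ i < k, x i ≤ b i) ∧ x k ≤ m} := by
        ext x
        simp only [mem_ofPred_eq, mem_iUnion]
        exact ⟨fun hx => ⟨x k, hx, le_rfl⟩, fun ⟨_, hx, _⟩ => hx⟩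
      have hmono : Monotone fun m : ℕ => {x : ℕ → ℕ | (∀ i < k, x i ≤ b i) ∧ x k ≤ m} :=
        fun m m' hm x hx => ⟨hx.1, hx.2.trans hm⟩
      rw [e, hI _ hmono, lt_iSup_iff] at h
      obtain ⟨m, hm⟩ := h
      refine ⟨m, fun _ => ?_⟩
      have e2 : {x : ℕ → ℕ | ∀ i < k + 1, x i ≤ Function.update b k m i}
          = {x | (∀ i < k, x i ≤ b i) ∧ x k ≤ m} := by
        ext x
        simp only [mem_ofPred_eq]
        constructor
        · intro hx
          refine ⟨fun i hi => ?_, by simpa using hx k (Nat.lt_succ_self k)⟩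
          have := hx i (by omega)
          rwa [Function.update_of_ne hi.ne] at this
        · rintro ⟨h1, h2⟩ i hi
          rcases eq_or_ne i k with rfl | hne
          · simpa using h2
          · rw [Function.update_of_ne hne]; exact h1 i (by omega)
      rwa [e2]
    · exact ⟨0, fun h' => absurd h' h⟩
  choose m hm using step
  let b : ℕ → ℕ → ℕ := fun k => Nat.rec (fun _ => 0) (fun k b => Function.update b k (m k b)) k
  have hb : ∀ k, b (k + 1) = Function.update (b k) k (m k (b k)) := fun k => rfl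
  have h1 : ∀ k, c < I {x | ∀ i < k, x i ≤ b k i} := by
    intro k
    induction k with
    | zero => simpa using hc
    | succ k ih => rw [hb]; exact hm k (b k) ih
  have h2 : ∀ k, ∀ i < k, b k i = b (i + 1) i := by
    intro k
    induction k with
    | zero => intro i hi; omega
    | succ k ih =>
      intro i hi
      rcases eq_or_ne i k with rfl | hne
      · rfl
      · rw [hb k, Function.update_of_ne hne]; exact ih i (by omega)
  refine ⟨fun i => b (i + 1) i, fun k => ?_⟩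
  have e : {x : ℕ → ℕ | ∀ i < k, x i ≤ b (i + 1) i} = {x | ∀ i < k, x i ≤ b k i} := by
    ext x
    simp only [mem_ofPred_eq]
    exact forall₂_congr fun i hi => by rw [h2 k i hi]
  rw [e]
  exact h1 k

variable [MeasurableSpace Ω] [TopologicalSpace E] [T2Space E] [LocallyCompactSpace E]
  [SecondCountableTopology E]

theorem le_hit_compact {X : Ω → Set E} (hX : IsRandomClosedSet X) (μ : Measure Ω)
    [IsFiniteMeasure μ] {K : Set E} (hK : IsCompact K) (c : ℝ≥0∞)
    (h : ∀ U, IsOpen U → K ⊆ U → c ≤ μ (hit X U)) : c ≤ μ (hit X K) := by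
  let _ := TopologicalSpace.metrizableSpaceMetric E
  obtain ⟨δ, hδ, hδK⟩ := hK.exists_isCompact_cthickening
  let C : ℕ → Set E := fun m => Metric.cthickening (δ / (m + 1)) K
  have hle : ∀ m : ℕ, δ / (m + 1) ≤ δ := fun m =>
    div_le_self hδ.le (by linarith [(Nat.cast_nonneg m : (0 : ℝ) ≤ m)])
  have hC : ∀ m, IsCompact (C m) := fun m =>
    hδK.of_isClosed_subset Metric.isClosed_cthickening (Metric.cthickening_mono (hle m) K)
  have hanti : Antitone C := by
    intro m m' hm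
    apply Metric.cthickening_mono
    apply div_le_div_of_nonneg_left hδ.le (by positivity)
    exact_mod_cast Nat.succ_le_succ hm
  have hint : ⋂ m, C m ⊆ K := by
    intro x hx
    rw [← hK.isClosed.closure_eq, Metric.closure_eq_iInter_cthickening]
    simp only [mem_iInter] at hx ⊢
    intro ε hε
    obtain ⟨m, hm⟩ := exists_nat_ge (δ / ε)
    refine Metric.cthickening_mono ?_ K (hx m)
    rw [div_le_iff₀ hε] at hm
    rw [div_le_iff₀ (by positivity)]
    nlinarith
  have e : ⋂ m, hit X (C m) ⊆ hit X K := by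
    intro ω hω
    simp only [mem_iInter] at hω
    have := IsCompact.nonempty_iInter_of_sequence_nonempty_isCompact_isClosed
      (fun m => X ω ∩ C m) (fun m => inter_subset_inter_right _ (hanti (Nat.le_succ m))) hω
      ((hC 0).inter_left (hX.closed ω)) (fun m => (hX.closed ω).inter (hC m).isClosed)
    obtain ⟨x, hx⟩ := this
    simp only [mem_iInter] at hx
    exact ⟨x, (hx 0).1, hint (mem_iInter.mpr fun m => (hx m).2)⟩
  refine le_trans ?_ (measure_mono e)
  rw [Antitone.measure_iInter (fun m m' hm => hit_mono X (hanti hm))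
    (fun m => (hX.meas _ (hC m)).nullMeasurableSet) ⟨0, measure_ne_top _ _⟩]
  refine le_iInf fun m => ?_
  refine le_trans (h (Metric.thickening (δ / (m + 1)) K) Metric.isOpen_thickening
    (Metric.self_subset_thickening (by positivity) K)) (measure_mono (hit_mono X ?_))
  exact Metric.thickening_subset_cthickening _ _

theorem capacitable {X : Ω → Set E} (hX : IsRandomClosedSet X) (μ : Measure Ω)
    [IsFiniteMeasure μ] {B : Set E} (hB : AnalyticSet B) (c : ℝ≥0∞) (hc : c < μ (hit X B)) :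
    ∃ K, IsCompact K ∧ K ⊆ B ∧ c ≤ μ (hit X K) := by
  rw [AnalyticSet] at hB
  rcases hB with rfl | ⟨f, hf, rfl⟩
  · exact ⟨∅, isCompact_empty, le_rfl, hc.le⟩
  obtain ⟨n, hn⟩ := baire_choice (fun S => μ (hit X (f '' S))) (fun S hS => by
    rw [image_iUnion, hit_iUnion]
    exact Monotone.measure_iUnion fun m m' hm => hit_mono X (image_mono (hS hm))) c
    (by simpa using hc)
  have hK : IsCompact {x : ℕ → ℕ | ∀ i, x i ≤ n i} := by
    have : {x : ℕ → ℕ | ∀ i, x i ≤ n i} = Set.pi univ fun i => Iic (n i) := by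
      ext x; simp [Pi.le_def]
    rw [this]
    exact isCompact_univ_pi fun i => (finite_Iic _).isCompact
  refine ⟨f '' {x | ∀ i, x i ≤ n i}, hK.image hf, image_subset_range _ _, ?_⟩
  apply le_hit_compact hX μ (hK.image hf)
  intro U hU hKU
  obtain ⟨k, hk⟩ := baire_approx n (f ⁻¹' U) (hU.preimage hf) (image_subset_iff.mp hKU)
  exact (hn k).le.trans (measure_mono (hit_mono X (image_subset_iff.mpr hk)))

variable [MeasurableSpace E] [BorelSpace E]

theorem hit_ae_eq {X : Ω → Set E} (hX : IsRandomClosedSet X) (μ : Measure Ω)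
    [IsFiniteMeasure μ] {B : Set E} (hB : MeasurableSet B) :
    ∃ K : ℚ → Set E, (∀ q, IsCompact (K q)) ∧ (∀ q, K q ⊆ B) ∧
      (⋃ q, hit X (K q)) =ᵐ[μ] hit X B := by
  have h : ∀ q : ℚ, ∃ K, IsCompact K ∧ K ⊆ B ∧
      ((Real.toNNReal q : ℝ≥0∞) < μ (hit X B) → (Real.toNNReal q : ℝ≥0∞) ≤ μ (hit X K)) := by
    intro q
    by_cases hq : (Real.toNNReal q : ℝ≥0∞) < μ (hit X B)
    · obtain ⟨K, h1, h2, h3⟩ := capacitable hX μ (analytic_of_measurable hB) _ hq
      exact ⟨K, h1, h2, fun _ => h3⟩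
    · exact ⟨∅, isCompact_empty, empty_subset _, fun h => absurd h hq⟩
  choose K h1 h2 h3 using h
  refine ⟨K, h1, h2, ?_⟩
  apply ae_eq_of_subset_of_measure_ge (iUnion_subset fun q => hit_mono X (h2 q)) _
    (MeasurableSet.iUnion fun q => hX.meas _ (h1 q)).nullMeasurableSet (measure_ne_top _ _)
  by_contra hlt
  obtain ⟨q, _, hq1, hq2⟩ := ENNReal.lt_iff_exists_rat_btwn.mp (not_le.mp hlt)
  exact absurd ((h3 q hq2).trans (measure_mono (subset_iUnion (fun q => hit X (K q)) q)))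
    (not_le.mpr hq1)

theorem hit_nullMeasurable {X : Ω → Set E} (hX : IsRandomClosedSet X) (μ : Measure Ω)
    [IsFiniteMeasure μ] {B : Set E} (hB : MeasurableSet B) : NullMeasurableSet (hit X B) μ := by
  obtain ⟨K, h1, _, h3⟩ := hit_ae_eq hX μ hB
  exact (MeasurableSet.iUnion fun q => hX.meas _ (h1 q)).nullMeasurableSet.congr h3

theorem select_compact [Nonempty E] {X : Ω → Set E} (hX : IsRandomClosedSet X) {K : Set E}
    (hK : IsCompact K) : ∃ ξ : Ω → E, Measurable ξ ∧ ∀ ω ∈ hit X K, ξ ω ∈ X ω ∩ K := by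
  classical
  rcases K.eq_empty_or_nonempty with rfl | hne
  · exact ⟨fun _ => Classical.arbitrary E, measurable_const, fun ω hω => by simp [hit] at hω⟩
  let _ := TopologicalSpace.metrizableSpaceMetric E
  have : CompactSpace K := isCompact_iff_compactSpace.mp hK
  have : Nonempty K := hne.to_subtype
  obtain ⟨f, hf, hfs⟩ := exists_nat_bool_continuous_surjective_of_compact K
  let g : cantorSet → E := fun c => f (cantorSetHomeomorphNatToBool c)
  have hg : Continuous g :=
    continuous_subtype_val.comp (hf.comp cantorSetHomeomorphNatToBool.continuous)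
  have hgK : ∀ c, g c ∈ K := fun c => (f _).2
  have hgs : ∀ x ∈ K, ∃ c, g c = x := by
    intro x hx
    obtain ⟨y, hy⟩ := hfs ⟨x, hx⟩
    exact ⟨cantorSetHomeomorphNatToBool.symm y, by simp [g, hy]⟩
  have : CompactSpace cantorSet := isCompact_iff_compactSpace.mp isCompact_cantorSet
  have hmin : ∀ ω, ∃ c : cantorSet, (ω ∈ hit X K → g c ∈ X ω ∧
      ∀ c' : cantorSet, g c' ∈ X ω → (c : ℝ) ≤ c') ∧ (ω ∉ hit X K → (c : ℝ) = 0) := by
    intro ω
    by_cases hω : ω ∈ hit X K
    · obtain ⟨x, hx1, hx2⟩ := id hω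
      obtain ⟨c0, hc0⟩ := hgs x hx2
      obtain ⟨c, hc1, hc2⟩ := ((hX.closed ω).preimage hg).isCompact.exists_isMinOn
        ⟨c0, by simpa [hc0] using hx1⟩ (f := fun c : cantorSet => (c : ℝ))
        continuous_subtype_val.continuousOn
      exact ⟨c, fun _ => ⟨hc1, fun c' hc' => hc2 hc'⟩, fun h => absurd hω h⟩
    · exact ⟨⟨0, zero_mem_cantorSet⟩, fun h => absurd h hω, fun _ => rfl⟩
  choose τ hτ1 hτ2 using hmin
  have hτm : Measurable fun ω => (τ ω : ℝ) := by
    apply measurable_of_Iic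
    intro u
    have hc : IsCompact (g '' {c : cantorSet | (c : ℝ) ≤ u}) :=
      ((isClosed_le continuous_subtype_val continuous_const).isCompact).image hg
    have e : (fun ω => (τ ω : ℝ)) ⁻¹' Iic u
        = hit X (g '' {c : cantorSet | (c : ℝ) ≤ u}) ∪ ((hit X K)ᶜ ∩ {_ω | 0 ≤ u}) := by
      ext ω
      simp only [mem_preimage, mem_Iic, mem_union, mem_inter_iff, mem_compl_iff, mem_ofPred_eq]
      constructor
      · intro h
        by_cases hω : ω ∈ hit X K
        · exact Or.inl ⟨g (τ ω), (hτ1 ω hω).1, τ ω, h, rfl⟩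
        · exact Or.inr ⟨hω, by rwa [hτ2 ω hω] at h⟩
      · rintro (⟨x, hx, c, hc, rfl⟩ | ⟨h1, h2⟩)
        · exact ((hτ1 ω ⟨g c, hx, hgK c⟩).2 c hx).trans hc
        · rwa [hτ2 ω h1]
    rw [e]
    exact (hX.meas _ hc).union ((hX.meas _ hK).compl.inter (MeasurableSet.const _))
  exact ⟨fun ω => g (τ ω), hg.measurable.comp hτm.subtype_mk,
    fun ω hω => ⟨(hτ1 ω hω).1, hgK _⟩⟩

theorem select_rel [Nonempty E] {X : Ω → Set E} (hX : IsRandomClosedSet X) (μ : Measure Ω)
    [IsFiniteMeasure μ] {ι : Type} [Countable ι] (F : ι → Set Ω) (B : ι → Set E)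
    (hF : ∀ j, NullMeasurableSet (F j) μ) (hB : ∀ j, MeasurableSet (B j))
    (hFB : ∀ j, F j ⊆ hit X (B j)) (hcov : ∀ᵐ ω ∂μ, ∃ j, ω ∈ F j) :
    ∃ ξ : Ω → E, Measurable ξ ∧ ∀ᵐ ω ∂μ, ∃ j, ω ∈ F j ∧ ξ ω ∈ X ω ∩ B j := by
  classical
  choose K hK1 hK2 hK3 using fun j => hit_ae_eq hX μ (hB j)
  choose F' hF1 hF2 hF3 using fun j => (hF j).exists_measurable_subset_ae_eq
  choose ξ hξ1 hξ2 using fun p : ι × ℚ => select_compact hX (hK1 p.1 p.2)
  rcases isEmpty_or_nonempty ι with hι | hι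
  · exact ⟨fun _ => Classical.arbitrary E, measurable_const,
      hcov.mono fun ω ⟨j, _⟩ => hι.elim j⟩
  obtain ⟨e, he⟩ := exists_surjective_nat (ι × ℚ)
  let G : ℕ → Set Ω := fun n => F' (e n).1 ∩ hit X (K (e n).1 (e n).2)
  have hG : ∀ n, MeasurableSet (G n) := fun n => (hF2 _).inter (hX.meas _ (hK1 _ _))
  obtain ⟨η, hη1, hη2⟩ := exists_measurable_piecewise (disjointed G)
    (MeasurableSet.disjointed hG) (fun n => ξ (e n)) (fun n => hξ1 _) (fun i j hij x hx =>
      absurd hx (by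
        have := (disjoint_disjointed G hij).inter_eq
        rw [this]; simp))
  refine ⟨η, hη1, ?_⟩
  have a1 : ∀ᵐ ω ∂μ, ∀ j, (ω ∈ F' j ↔ ω ∈ F j) := ae_all_iff.mpr fun j => (hF3 j).mem_iff
  have a2 : ∀ᵐ ω ∂μ, ∀ j, (ω ∈ ⋃ q, hit X (K j q) ↔ ω ∈ hit X (B j)) :=
    ae_all_iff.mpr fun j => (hK3 j).mem_iff
  filter_upwards [hcov, a1, a2] with ω ⟨j, hj⟩ h1 h2
  obtain ⟨q, hq⟩ := mem_iUnion.mp ((h2 j).mpr (hFB j hj))
  obtain ⟨n, hn⟩ := he (j, q)
  have hω : ω ∈ ⋃ n, G n := mem_iUnion.mpr ⟨n, by simp only [G, hn]; exact ⟨(h1 j).mpr hj, hq⟩⟩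
  rw [← iUnion_disjointed] at hω
  obtain ⟨k, hk⟩ := mem_iUnion.mp hω
  have hk' := disjointed_subset G k hk
  refine ⟨(e k).1, hF1 _ hk'.1, ?_⟩
  rw [hη2 k hk]
  have := hξ2 (e k) ω hk'.2
  exact ⟨this.1, hK2 _ _ this.2⟩

end Pool.Agent.MP_bae362_pr

end

-- part MP_bae362_pr.Alg
section

/-!
Completely monotone functions on a join semilattice.
-/

set_option autoImplicit false
open MeasureTheory Set Filter Topology

namespace Pool.Agent.MP_bae362_pr

variable {α : Type*} [SemilatticeSup α]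

/-- Iterated differences. -/
def alt : List α → (α → ℝ) → α → ℝ
  | [], g => g
  | a :: l, g => alt l (fun x => g x - g (x ⊔ a))

/-- Completely monotone functions. -/
def CM (g : α → ℝ) : Prop := ∀ l x, 0 ≤ alt l g x

theorem alt_add (l : List α) : ∀ (g h : α → ℝ) (x : α),
    alt l (fun y => g y + h y) x = alt l g x + alt l h x := by
  induction l with
  | nil => intro g h x; rfl
  | cons a l ih =>
    intro g h x
    simp only [alt]
    rw [← ih]
    congr 1
    funext y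
    ring

theorem alt_smul (l : List α) (c : ℝ) : ∀ (g : α → ℝ) (x : α),
    alt l (fun y => c * g y) x = c * alt l g x := by
  induction l with
  | nil => intro g x; rfl
  | cons a l ih =>
    intro g x
    simp only [alt]
    rw [← ih]
    congr 1
    funext y
    ring

theorem alt_shift (l : List α) (b : α) : ∀ (g : α → ℝ) (x : α),
    alt l (fun y => g (y ⊔ b)) x = alt l g (x ⊔ b) := by
  induction l with
  | nil => intro g x; rfl
  | cons a l ih =>
    intro g x
    simp only [alt]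
    rw [← ih]
    congr 1
    funext y
    rw [sup_right_comm]

theorem CM.nonneg {g : α → ℝ} (h : CM g) (x : α) : 0 ≤ g x := h [] x

theorem CM.diff {g : α → ℝ} (h : CM g) (a : α) : CM fun x => g x - g (x ⊔ a) :=
  fun l x => h (a :: l) x

theorem CM.shift {g : α → ℝ} (h : CM g) (a : α) : CM fun x => g (x ⊔ a) :=
  fun l x => by rw [alt_shift]; exact h l _

theorem CM.add {g h : α → ℝ} (hg : CM g) (hh : CM h) : CM fun x => g x + h x :=
  fun l x => by rw [alt_add]; exact add_nonneg (hg l x) (hh l x)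

theorem CM.smul {g : α → ℝ} (hg : CM g) {c : ℝ} (hc : 0 ≤ c) : CM fun x => c * g x :=
  fun l x => by rw [alt_smul]; exact mul_nonneg hc (hg l x)

theorem CM.mul {g h : α → ℝ} (hg : CM g) (hh : CM h) : CM fun x => g x * h x := by
  intro l
  induction l generalizing g h with
  | nil => intro x; exact mul_nonneg (hg.nonneg x) (hh.nonneg x)
  | cons a l ih =>
    intro x
    have e : (fun x => g x * h x - g (x ⊔ a) * h (x ⊔ a))
        = fun x => (g x - g (x ⊔ a)) * h x + g (x ⊔ a) * (h x - h (x ⊔ a)) := by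
      funext y; ring
    simp only [alt]
    rw [e, alt_add]
    exact add_nonneg (ih (hg.diff a) hh x) (ih (hg.shift a) (hh.diff a) x)

theorem CM_of_min {φ : α → ℝ} (h0 : ∀ x, 0 ≤ φ x) (h : ∀ x y, φ (x ⊔ y) = min (φ x) (φ y)) :
    CM φ := by
  intro l
  induction l generalizing φ with
  | nil => exact h0
  | cons a l ih =>
    simp only [alt]
    apply ih
    · intro x
      rw [h]
      linarith [min_le_left (φ x) (φ a)]
    · intro x y
      simp only [h]
      simp only [min_def]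
      split_ifs <;> linarith

theorem CM_const {c : ℝ} (hc : 0 ≤ c) : CM fun _ : α => c :=
  CM_of_min (fun _ => hc) (fun _ _ => (min_self c).symm)

theorem CM.pow {g : α → ℝ} (hg : CM g) (n : ℕ) : CM fun x => g x ^ n := by
  induction n with
  | zero => simpa using CM_const (α := α) zero_le_one
  | succ n ih => simpa only [pow_succ] using ih.mul hg

theorem CM_sum {ι : Type*} (s : Finset ι) (g : ι → α → ℝ) (h : ∀ i, CM (g i)) :
    CM fun x => ∑ i ∈ s, g i x := by
  classical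
  induction s using Finset.induction_on with
  | empty => simpa using CM_const (α := α) le_rfl
  | insert i s hi ih => simpa only [Finset.sum_insert hi] using (h i).add ih

theorem alt_tendsto (l : List α) : ∀ (g : ℕ → α → ℝ) (G : α → ℝ),
    (∀ x, Tendsto (fun n => g n x) atTop (𝓝 (G x))) →
    ∀ x, Tendsto (fun n => alt l (g n) x) atTop (𝓝 (alt l G x)) := by
  induction l with
  | nil => intro g G h x; exact h x
  | cons a l ih =>
    intro g G h x
    exact ih _ _ (fun y => (h y).sub (h (y ⊔ a))) x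

theorem CM_of_tendsto {g : ℕ → α → ℝ} {G : α → ℝ} (hg : ∀ n, CM (g n))
    (h : ∀ x, Tendsto (fun n => g n x) atTop (𝓝 (G x))) : CM G :=
  fun l x => ge_of_tendsto' (alt_tendsto l g G h x) fun n => hg n l x

theorem CM.inv {h : α → ℝ} (hh : CM h) {C : ℝ} (hC : 0 < C) (hlt : ∀ x, h x < C) :
    CM fun x => (C - h x)⁻¹ := by
  have hCi : 0 ≤ C⁻¹ := by positivity
  refine CM_of_tendsto (g := fun n x => C⁻¹ * ∑ i ∈ Finset.range n, (C⁻¹ * h x) ^ i)
    (fun n => (CM_sum _ _ fun i => (hh.smul hCi).pow i).smul hCi) fun x => ?_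
  have h1 : C⁻¹ * h x < 1 := by
    rw [inv_mul_lt_iff₀ hC, mul_one]; exact hlt x
  have h2 := (hasSum_geometric_of_lt_one (mul_nonneg hCi (hh.nonneg x)) h1).tendsto_sum_nat
  have h3 := h2.const_mul C⁻¹
  have e : C⁻¹ * (1 - C⁻¹ * h x)⁻¹ = (C - h x)⁻¹ := by
    rw [← mul_inv]
    congr 1
    field_simp
  rwa [e] at h3

theorem alt_integral {Ω : Type*} [MeasurableSpace Ω] (μ : Measure Ω) (l : List α) :
    ∀ (φ : Ω → α → ℝ), (∀ x, Integrable (fun ω => φ ω x) μ) →
    ∀ x, alt l (fun y => ∫ ω, φ ω y ∂μ) x = ∫ ω, alt l (φ ω) x ∂μ := by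
  induction l with
  | nil => intro φ _ x; rfl
  | cons a l ih =>
    intro φ hφ x
    simp only [alt]
    rw [← ih (fun ω y => φ ω y - φ ω (y ⊔ a)) (fun y => (hφ y).sub (hφ _))]
    congr 1
    funext y
    rw [integral_sub (hφ y) (hφ _)]

theorem CM_integral {Ω : Type*} [MeasurableSpace Ω] (μ : Measure Ω) (φ : Ω → α → ℝ)
    (hφ : ∀ x, Integrable (fun ω => φ ω x) μ) (h : ∀ ω, CM (φ ω)) :
    CM fun y => ∫ ω, φ ω y ∂μ :=
  fun l x => by rw [alt_integral μ l φ hφ]; exact integral_nonneg fun ω => h ω l x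

theorem CM.powerset {ι : Type*} [DecidableEq ι] (s : Finset ι) :
    ∀ {G : Finset ι → ℝ}, CM G → 0 ≤ ∑ I ∈ s.powerset, (-1 : ℝ) ^ I.card * G I := by
  induction s using Finset.induction_on with
  | empty => intro G hG; simpa using hG.nonneg ∅
  | insert i s hi ih =>
    intro G hG
    rw [Finset.sum_powerset_insert hi, ← Finset.sum_add_distrib]
    refine le_trans (ih (hG.diff {i})) (le_of_eq ?_)
    apply Finset.sum_congr rfl
    intro I hI
    have hiI : i ∉ I := fun h => hi (Finset.mem_powerset.mp hI h)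
    rw [Finset.card_insert_of_notMem hiI, Finset.sup_eq_union, Finset.union_comm,
      ← Finset.insert_eq]
    ring

end Pool.Agent.MP_bae362_pr

end

-- part MP_bae362_pr.Ratio
section

/-!
The ratio `s / (s + t)` is completely alternating.
-/

set_option autoImplicit false
open MeasureTheory Set Filter Topology
open scoped ENNReal NNReal

namespace Pool.Agent.MP_bae362_pr

variable {Ω E : Type*}

/-- Pointwise supremum of the likelihood over `X ∩ A`. -/
noncomputable def supL (X : Ω → Set E) (L : E → ℝ≥0) (A : Set E) (ω : Ω) : ℝ≥0∞ :=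
  ⨆ x ∈ X ω ∩ A, (L x : ℝ≥0∞)

/-- Pointwise infimum of the likelihood over `X`. -/
noncomputable def infL (X : Ω → Set E) (L : E → ℝ≥0) (ω : Ω) : ℝ≥0∞ :=
  ⨅ x ∈ X ω, (L x : ℝ≥0∞)

/-- The infimum, counted only when `X` misses `A`. -/
noncomputable def missL (X : Ω → Set E) (L : E → ℝ≥0) (A : Set E) : Ω → ℝ≥0∞ :=
  (hit X A)ᶜ.indicator (infL X L)

theorem hit_union (X : Ω → Set E) (A B : Set E) : hit X (A ∪ B) = hit X A ∪ hit X B := by
  ext ω
  simp [hit, inter_union_distrib_left]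

theorem supL_union (X : Ω → Set E) (L : E → ℝ≥0) (A B : Set E) (ω : Ω) :
    supL X L (A ∪ B) ω = max (supL X L A ω) (supL X L B ω) := by
  unfold supL
  rw [inter_union_distrib_left, iSup_union]

theorem supL_of_not_hit (X : Ω → Set E) (L : E → ℝ≥0) (A : Set E) (ω : Ω) (h : ω ∉ hit X A) :
    supL X L A ω = 0 := by
  unfold supL
  have : X ω ∩ A = ∅ := not_nonempty_iff_eq_empty.mp h
  simp [this]

theorem le_supL (X : Ω → Set E) (L : E → ℝ≥0) (A : Set E) (ω : Ω) {x : E} (hx : x ∈ X ω ∩ A) :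
    (L x : ℝ≥0∞) ≤ supL X L A ω :=
  le_iSup₂ (f := fun x (_ : x ∈ X ω ∩ A) => (L x : ℝ≥0∞)) x hx

theorem infL_le (X : Ω → Set E) (L : E → ℝ≥0) (ω : Ω) {x : E} (hx : x ∈ X ω) :
    infL X L ω ≤ (L x : ℝ≥0∞) :=
  iInf₂_le (f := fun x (_ : x ∈ X ω) => (L x : ℝ≥0∞)) x hx

theorem sup_add_miss (X : Ω → Set E) (L : E → ℝ≥0) (A : Set E) (ω : Ω) :
    supL X L A ω + missL X L A ω = infL X L ω + (supL X L A ω - infL X L ω) := by
  by_cases h : ω ∈ hit X A
  · obtain ⟨x, hx⟩ := id h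
    have : infL X L ω ≤ supL X L A ω := (infL_le X L ω hx.1).trans (le_supL X L A ω hx)
    rw [missL, indicator_of_notMem (by simpa using h), add_zero, add_tsub_cancel_of_le this]
  · rw [missL, indicator_of_mem (by simpa using h), supL_of_not_hit X L A ω h]
    simp

theorem missL_le (X : Ω → Set E) (L : E → ℝ≥0) (A : Set E) (ω : Ω) :
    missL X L A ω ≤ infL X L ω := indicator_le_self _ _ ω

theorem missL_empty (X : Ω → Set E) (L : E → ℝ≥0) : missL X L ∅ = infL X L := by
  simp [missL, hit]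

theorem missL_union (X : Ω → Set E) (L : E → ℝ≥0) (A B : Set E) (ω : Ω) :
    (missL X L (A ∪ B) ω).toReal = min (missL X L A ω).toReal (missL X L B ω).toReal := by
  unfold missL
  rw [hit_union]
  by_cases h1 : ω ∈ hit X A <;> by_cases h2 : ω ∈ hit X B <;> simp [h1, h2]

theorem lt_supL (X : Ω → Set E) (L : E → ℝ≥0) (A : Set E) (r : ℝ≥0∞) :
    supL X L A ⁻¹' Ioi r = hit X (A ∩ {x | r < L x}) := by
  ext ω
  simp only [supL, mem_preimage, mem_Ioi, lt_iSup_iff, hit, mem_ofPred_eq]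
  exact ⟨fun ⟨x, hx, h⟩ => ⟨x, hx.1, hx.2, h⟩, fun ⟨x, h1, h2, h3⟩ => ⟨x, ⟨h1, h2⟩, h3⟩⟩

theorem infL_lt (X : Ω → Set E) (L : E → ℝ≥0) (r : ℝ≥0∞) :
    infL X L ⁻¹' Iio r = hit X {x | (L x : ℝ≥0∞) < r} := by
  ext ω
  simp only [infL, mem_preimage, mem_Iio, iInf_lt_iff, hit, mem_ofPred_eq]
  exact ⟨fun ⟨x, hx, h⟩ => ⟨x, hx, h⟩, fun ⟨x, h1, h2⟩ => ⟨x, h1, h2⟩⟩

variable [MeasurableSpace Ω]

/-- Wasserman's ratio, with value one when the numerator is infinite. -/
noncomputable def ratio (μ : Measure Ω) (X : Ω → Set E) (L : E → ℝ≥0) (A : Set E) : ℝ≥0∞ :=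
  if ∫⁻ ω, supL X L A ω ∂μ = ∞ then 1
  else (∫⁻ ω, supL X L A ω ∂μ) / (∫⁻ ω, supL X L A ω ∂μ + ∫⁻ ω, missL X L A ω ∂μ)

theorem one_sub_ratio_aux (s t : ℝ≥0∞) (ht : t ≠ ∞) (h : s + t ≠ 0) :
    1 - (if s = ∞ then 1 else s / (s + t)).toReal = (t / (s + t)).toReal := by
  split_ifs with hs
  · simp [hs]
  · rw [ENNReal.toReal_div, ENNReal.toReal_div, ENNReal.toReal_add hs ht]
    have : s.toReal + t.toReal ≠ 0 := by
      rw [← ENNReal.toReal_add hs ht]
      exact ENNReal.toReal_ne_zero.mpr ⟨h, ENNReal.add_ne_top.mpr ⟨hs, ht⟩⟩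
    field_simp
    ring

variable [TopologicalSpace E] [T2Space E] [LocallyCompactSpace E]
  [SecondCountableTopology E] [MeasurableSpace E] [BorelSpace E]

theorem supL_aemeasurable {X : Ω → Set E} (hX : IsRandomClosedSet X) (μ : Measure Ω)
    [IsFiniteMeasure μ] {L : E → ℝ≥0} (hL : Measurable L) {A : Set E} (hA : MeasurableSet A) :
    AEMeasurable (supL X L A) μ := by
  apply NullMeasurable.aemeasurable
  apply measurable_of_Ioi (δ := NullMeasurableSpace Ω μ)
  intro r
  have h : NullMeasurableSet (supL X L A ⁻¹' Ioi r) μ := by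
    rw [lt_supL]
    exact hit_nullMeasurable hX μ
      (hA.inter (measurableSet_lt measurable_const hL.coe_nnreal_ennreal))
  exact h

theorem infL_aemeasurable {X : Ω → Set E} (hX : IsRandomClosedSet X) (μ : Measure Ω)
    [IsFiniteMeasure μ] {L : E → ℝ≥0} (hL : Measurable L) : AEMeasurable (infL X L) μ := by
  apply NullMeasurable.aemeasurable
  apply measurable_of_Iio (δ := NullMeasurableSpace Ω μ)
  intro r
  have h : NullMeasurableSet (infL X L ⁻¹' Iio r) μ := by
    rw [infL_lt]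
    exact hit_nullMeasurable hX μ (measurableSet_lt hL.coe_nnreal_ennreal measurable_const)
  exact h

theorem missL_aemeasurable {X : Ω → Set E} (hX : IsRandomClosedSet X) (μ : Measure Ω)
    [IsFiniteMeasure μ] {L : E → ℝ≥0} (hL : Measurable L) {A : Set E} (hA : MeasurableSet A) :
    AEMeasurable (missL X L A) μ :=
  (infL_aemeasurable hX μ hL).indicator₀ (hit_nullMeasurable hX μ hA).compl

theorem ratio_CM {X : Ω → Set E} (hX : IsRandomClosedSet X) (μ : Measure Ω)
    [IsProbabilityMeasure μ] {L : E → ℝ≥0} (hL : Measurable L)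
    (hc : ∫⁻ ω, infL X L ω ∂μ ≠ ∞) {α : Type*} [SemilatticeSup α] (T : α → Set E)
    (hT : ∀ x, MeasurableSet (T x)) (hTu : ∀ x y, T (x ⊔ y) = T x ∪ T y) :
    CM fun x => 1 - (ratio μ X L (T x)).toReal := by
  have hS := fun x => supL_aemeasurable hX μ hL (hT x)
  have hm := infL_aemeasurable hX μ hL
  have hM := fun x => missL_aemeasurable hX μ hL (hT x)
  obtain ⟨c, hcdef⟩ : ∃ c, c = ∫⁻ ω, infL X L ω ∂μ := ⟨_, rfl⟩
  have ht : ∀ x, ∫⁻ ω, missL X L (T x) ω ∂μ ≤ c := fun x =>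
    hcdef ▸ lintegral_mono fun ω => missL_le X L _ ω
  rw [← hcdef] at hc
  have ht' : ∀ x, ∫⁻ ω, missL X L (T x) ω ∂μ ≠ ∞ := fun x => ne_top_of_le_ne_top hc (ht x)
  rcases eq_or_ne c 0 with h0 | h0
  · have e : ∀ x, 1 - (ratio μ X L (T x)).toReal
        = if ∫⁻ ω, supL X L (T x) ω ∂μ = 0 then 1 else 0 := by
      intro x
      have h1 : ∫⁻ ω, missL X L (T x) ω ∂μ = 0 := le_antisymm (h0 ▸ ht x) zero_le
      unfold ratio
      rw [h1, add_zero]
      by_cases h2 : ∫⁻ ω, supL X L (T x) ω ∂μ = ∞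
      · simp [h2]
      · by_cases h3 : ∫⁻ ω, supL X L (T x) ω ∂μ = 0
        · simp [h3]
        · simp [h2, h3, ENNReal.div_self h3 h2]
    simp only [e]
    apply CM_of_min
    · intro x; split_ifs <;> norm_num
    · intro x y
      have h1 : ∫⁻ ω, supL X L (T (x ⊔ y)) ω ∂μ = 0 ↔
          ∫⁻ ω, supL X L (T x) ω ∂μ = 0 ∧ ∫⁻ ω, supL X L (T y) ω ∂μ = 0 := by
        rw [lintegral_eq_zero_iff' (hS _), lintegral_eq_zero_iff' (hS _),
          lintegral_eq_zero_iff' (hS _), hTu]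
        simp only [EventuallyEq, ← eventually_and, supL_union, Pi.zero_apply]
        apply eventually_congr
        refine Eventually.of_forall fun ω => ?_
        simp
      simp only [h1]
      by_cases h2 : ∫⁻ ω, supL X L (T x) ω ∂μ = 0 <;>
        by_cases h3 : ∫⁻ ω, supL X L (T y) ω ∂μ = 0 <;> simp [h2, h3]
  set W : α → Ω → ℝ≥0∞ := fun x ω => supL X L (T x) ω - infL X L ω with hW
  have hWm : ∀ x, AEMeasurable (W x) μ := fun x => (hS x).sub hm
  have hst : ∀ x, ∫⁻ ω, supL X L (T x) ω ∂μ + ∫⁻ ω, missL X L (T x) ω ∂μ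
      = c + ∫⁻ ω, W x ω ∂μ := by
    intro x
    rw [← lintegral_add_left' (hS x), hcdef, ← lintegral_add_left' hm]
    exact lintegral_congr fun ω => sup_add_miss X L _ ω
  have e : ∀ x, 1 - (ratio μ X L (T x)).toReal
      = ((∫⁻ ω, missL X L (T x) ω ∂μ) / (c + ∫⁻ ω, W x ω ∂μ)).toReal := by
    intro x
    unfold ratio
    rw [one_sub_ratio_aux _ _ (ht' x) (by rw [hst]; simp [h0]), hst]
  simp only [e]
  have hWn : ∀ (n : ℕ) x, AEMeasurable (fun ω => min (W x ω) n) μ := fun n x =>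
    (hWm x).min aemeasurable_const
  have hWfin : ∀ (n : ℕ) x, ∫⁻ ω, min (W x ω) n ∂μ ≠ ∞ := by
    intro n x
    refine ne_top_of_le_ne_top (b := n) (by simp) ?_
    calc ∫⁻ ω, min (W x ω) n ∂μ ≤ ∫⁻ _ω, (n : ℝ≥0∞) ∂μ := lintegral_mono fun ω => min_le_right _ _
      _ = n := by simp
  refine CM_of_tendsto (g := fun n x =>
    ((∫⁻ ω, missL X L (T x) ω ∂μ) / (c + ∫⁻ ω, min (W x ω) n ∂μ)).toReal) (fun n => ?_)
    (fun x => ?_)
  · have c1 : CM fun x => ∫ ω, (missL X L (T x) ω).toReal ∂μ := by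
      apply CM_integral μ (fun ω x => (missL X L (T x) ω).toReal)
        (fun x => integrable_toReal_of_lintegral_ne_top (hM x) (ht' x))
      intro ω
      exact CM_of_min (fun x => ENNReal.toReal_nonneg) fun x y => by rw [hTu, missL_union]
    have hanti : Antitone fun a : ℝ≥0∞ => (n : ℝ) - (min a n).toReal := by
      intro a b hab
      have := ENNReal.toReal_mono (a := min a n) (b := min b n) (by simp)
        (min_le_min_right _ hab)
      simp only
      linarith
    have c2 : CM fun x => ∫ ω, ((n : ℝ) - (min (W x ω) n).toReal) ∂μ := by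
      apply CM_integral μ (fun ω x => (n : ℝ) - (min (W x ω) n).toReal)
        (fun x => (integrable_const _).sub
          (integrable_toReal_of_lintegral_ne_top (hWn n x) (hWfin n x)))
      intro ω
      apply CM_of_min
      · intro x
        have := ENNReal.toReal_mono (a := min (W x ω) n) (b := n) (by simp) (min_le_right _ _)
        simpa using this
      · intro x y
        have e1 : W (x ⊔ y) ω = max (W x ω) (W y ω) := by
          simp only [hW, hTu, supL_union]
          exact Monotone.map_max (f := fun a => a - infL X L ω) fun a b h => tsub_le_tsub_right h _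
        rw [e1]
        exact hanti.map_max
    have e2 : ∀ x, ∫ ω, ((n : ℝ) - (min (W x ω) n).toReal) ∂μ
        = n - (∫⁻ ω, min (W x ω) n ∂μ).toReal := by
      intro x
      rw [integral_sub (integrable_const _)
        (integrable_toReal_of_lintegral_ne_top (hWn n x) (hWfin n x)),
        integral_toReal (hWn n x) (Eventually.of_forall fun ω => by simp)]
      simp
    have hcpos : 0 < c.toReal := ENNReal.toReal_pos h0 hc
    have c3 := c2.inv (C := c.toReal + n) (by positivity) (fun x => by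
      rw [e2]
      linarith [ENNReal.toReal_nonneg (a := ∫⁻ ω, min (W x ω) n ∂μ)])
    have c4 := c1.mul c3
    have e3 : (fun x => ((∫⁻ ω, missL X L (T x) ω ∂μ) / (c + ∫⁻ ω, min (W x ω) n ∂μ)).toReal)
        = fun x => (∫ ω, (missL X L (T x) ω).toReal ∂μ)
          * (c.toReal + n - ∫ ω, ((n : ℝ) - (min (W x ω) n).toReal) ∂μ)⁻¹ := by
      funext x
      rw [e2, integral_toReal (hM x) (ae_lt_top' (hM x) (ht' x)), ENNReal.toReal_div,
        ENNReal.toReal_add hc (hWfin n x), div_eq_mul_inv]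
      congr 2
      ring
    rw [e3]
    exact c4
  · have t1 : Tendsto (fun n : ℕ => ∫⁻ ω, min (W x ω) n ∂μ) atTop (𝓝 (∫⁻ ω, W x ω ∂μ)) := by
      apply lintegral_tendsto_of_tendsto_of_monotone (fun n => hWn n x)
      · exact Eventually.of_forall fun ω n n' h => min_le_min_left _ (by exact_mod_cast h)
      · refine Eventually.of_forall fun ω => ?_
        have := (tendsto_const_nhds (x := W x ω) (f := (atTop : Filter ℕ))).min
          ENNReal.tendsto_nat_nhds_top
        simpa using this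
    have t2 := ENNReal.Tendsto.const_div (a := ∫⁻ ω, missL X L (T x) ω ∂μ)
      (t1.const_add c) (Or.inr (ht' x))
    exact (ENNReal.tendsto_toReal (ENNReal.div_ne_top (ht' x) (by simp [h0]))).comp t2

end Pool.Agent.MP_bae362_pr

end

-- part MP_bae362_pr.Wasserman
section

/-!
Wasserman's formula and the complete alternation of the posterior upper probability.
-/

set_option autoImplicit false
open MeasureTheory Set Filter Topology
open scoped ENNReal NNReal

namespace Pool.Agent.MP_bae362_pr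

variable {Ω E : Type*}

theorem ratio_mono (N D s t : ℝ≥0∞) (hN : N ≤ s) (hD : t ≤ D) (hs : s ≠ ∞) :
    N / (N + D) ≤ s / (s + t) := by
  refine le_trans (ENNReal.div_le_div_left (add_le_add le_rfl hD) N) ?_
  rcases eq_or_ne t ∞ with ht | ht
  · simp [ht]
  rcases eq_or_ne N 0 with h0 | h0
  · simp [h0]
  have hN' : N ≠ ∞ := ne_top_of_le_ne_top hs hN
  lift N to ℝ≥0 using hN'
  lift s to ℝ≥0 using hs
  lift t to ℝ≥0 using ht
  have h0' : 0 < N := by simpa [pos_iff_ne_zero] using h0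
  have hN2 : N ≤ s := by exact_mod_cast hN
  have h1 : 0 < N + t := by positivity
  have h2 : 0 < s + t := lt_of_lt_of_le h1 (add_le_add hN2 le_rfl)
  rw [← ENNReal.coe_add, ← ENNReal.coe_add, ← ENNReal.coe_div h1.ne', ← ENNReal.coe_div h2.ne',
    ENNReal.coe_le_coe, div_le_div_iff₀ h1 h2, mul_add, mul_add, mul_comm s N]
  exact add_le_add le_rfl (mul_le_mul_left hN2 t)

/-- The posterior upper probability with values in the extended nonnegative reals. -/
noncomputable def upperE [MeasurableSpace E] (C : Set (Measure E)) (L : E → ℝ≥0)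
    (A : Set E) : ℝ≥0∞ :=
  ⨆ P ∈ {P ∈ C | 0 < ∫⁻ x, L x ∂P ∧ ∫⁻ x, L x ∂P < ∞}, (∫⁻ x in A, L x ∂P) / ∫⁻ x, L x ∂P

theorem upperE_mono [MeasurableSpace E] (C : Set (Measure E)) (L : E → ℝ≥0) {A B : Set E}
    (h : A ⊆ B) : upperE C L A ≤ upperE C L B :=
  iSup₂_mono fun _ _ => ENNReal.div_le_div_right (lintegral_mono_set h) _

variable [MeasurableSpace Ω] [MeasurableSpace E]

/-- The family is dominated by the two expectations attached to `X`. -/
def Dominated (μ : Measure Ω) (X : Ω → Set E) (L : E → ℝ≥0) (C : Set (Measure E)) : Prop :=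
  ∀ P ∈ C, ∀ A, MeasurableSet A → ∫⁻ x in A, L x ∂P ≤ ∫⁻ ω, supL X L A ω ∂μ ∧
    ∫⁻ ω, missL X L A ω ∂μ ≤ ∫⁻ x in Aᶜ, L x ∂P

theorem setLIntegral_map_eq (μ : Measure Ω) {L : E → ℝ≥0} (hL : Measurable L) {ξ : Ω → E}
    (hξ : Measurable ξ) {A : Set E} (hA : MeasurableSet A) :
    ∫⁻ x in A, L x ∂(μ.map ξ) = ∫⁻ ω, A.indicator (fun x => (L x : ℝ≥0∞)) (ξ ω) ∂μ := by
  rw [← lintegral_indicator hA, lintegral_map (hL.coe_nnreal_ennreal.indicator hA) hξ]

theorem selection_dominated (μ : Measure Ω) (X : Ω → Set E) {L : E → ℝ≥0} (hL : Measurable L) :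
    Dominated μ X L (selectionLaws μ X) := by
  rintro P ⟨ξ, hξ, hsel, rfl⟩ A hA
  rw [setLIntegral_map_eq μ hL hξ hA, setLIntegral_map_eq μ hL hξ hA.compl]
  constructor
  · apply lintegral_mono_ae
    filter_upwards [hsel] with ω hω
    by_cases h : ξ ω ∈ A
    · rw [indicator_of_mem h]; exact le_supL X L A ω ⟨hω, h⟩
    · simp [indicator_of_notMem h]
  · apply lintegral_mono_ae
    filter_upwards [hsel] with ω hω
    by_cases h : ω ∈ hit X A
    · simp [missL, h]
    · have : ξ ω ∈ Aᶜ := fun h' => h ⟨ξ ω, hω, h'⟩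
      rw [indicator_of_mem this]
      exact (missL_le X L A ω).trans (infL_le X L ω hω)

theorem upperE_le_ratio (μ : Measure Ω) (X : Ω → Set E) (L : E → ℝ≥0) {C : Set (Measure E)}
    (h : Dominated μ X L C) {A : Set E} (hA : MeasurableSet A) :
    upperE C L A ≤ ratio μ X L A := by
  refine iSup₂_le fun P hP => ?_
  obtain ⟨h1, h2⟩ := h P hP.1 A hA
  unfold ratio
  split_ifs with hs
  · exact ENNReal.div_le_of_le_mul (by rw [one_mul]; exact setLIntegral_le_lintegral _ _)
  · rw [← lintegral_add_compl _ hA (μ := P)]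
    exact ratio_mono _ _ _ _ h1 h2 hs

theorem upperE_eq_zero (μ : Measure Ω) (X : Ω → Set E) (L : E → ℝ≥0) {C : Set (Measure E)}
    (h : Dominated μ X L C) (hc : ∫⁻ ω, infL X L ω ∂μ = ∞) (A : Set E) : upperE C L A = 0 := by
  refine le_antisymm (iSup₂_le fun P hP => ?_) zero_le
  have := (h P hP.1 ∅ MeasurableSet.empty).2
  rw [missL_empty, hc, compl_empty, Measure.restrict_univ] at this
  exact absurd hP.2.2 (not_lt.mpr this)

theorem exists_step (a ε : ℝ≥0∞) (ha : a ≠ ∞) (hε : ε ≠ 0) :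
    ∃ k : ℕ, k * ε ≤ a ∧ a < (k + 1) * ε := by
  classical
  have h : ∃ k : ℕ, a < (k + 1) * ε := by
    obtain ⟨n, hn⟩ := ENNReal.exists_nat_mul_gt hε ha
    exact ⟨n, hn.trans_le (mul_le_mul_left le_self_add _)⟩
  refine ⟨Nat.find h, ?_, Nat.find_spec h⟩
  rcases Nat.eq_zero_or_eq_succ_pred (Nat.find h) with h0 | h0
  · simp [h0]
  · have := Nat.find_min h (m := (Nat.find h).pred) (by omega)
    rw [h0]
    simpa using this

variable [TopologicalSpace E] [T2Space E] [LocallyCompactSpace E]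
  [SecondCountableTopology E] [BorelSpace E]

theorem near_optimal {X : Ω → Set E} (hX : IsRandomClosedSet X) (μ : Measure Ω)
    [IsProbabilityMeasure μ] {L : E → ℝ≥0} (hL : Measurable L) {A : Set E} (hA : MeasurableSet A)
    (hc : ∫⁻ ω, infL X L ω ∂μ ≠ ∞) (hs : ∫⁻ ω, supL X L A ω ∂μ ≠ ∞) (ε : ℝ≥0∞) (hε : ε ≠ 0) :
    ∃ P ∈ selectionLaws μ X, ∫⁻ ω, supL X L A ω ∂μ ≤ ∫⁻ x in A, L x ∂P + 2 * ε ∧
      ∫⁻ x, L x ∂P ≤ ∫⁻ ω, supL X L A ω ∂μ + ∫⁻ ω, missL X L A ω ∂μ + 2 * ε := by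
  have hS := supL_aemeasurable hX μ hL hA
  have hm := infL_aemeasurable hX μ hL
  have hM := missL_aemeasurable hX μ hL hA
  have hmfin := ae_lt_top' hm hc
  have hSfin := ae_lt_top' hS hs
  have hne : Nonempty E := by
    obtain ⟨ω, hω⟩ := hmfin.exists
    simp only [infL, iInf_lt_iff] at hω
    obtain ⟨x, _⟩ := hω
    exact ⟨x⟩
  let B : ℕ ⊕ ℕ → Set E := Sum.elim (fun k => A ∩ {x | k * ε ≤ (L x : ℝ≥0∞) + ε})
    (fun k => {x | (L x : ℝ≥0∞) < (k + 1) * ε})
  let F : ℕ ⊕ ℕ → Set Ω := Sum.elim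
    (fun k => hit X (B (Sum.inl k)) ∩ supL X L A ⁻¹' Iio ((k + 1) * ε))
    (fun k => hit X (B (Sum.inr k)) ∩ ((hit X A)ᶜ ∩ infL X L ⁻¹' Ici (k * ε)))
  have hB : ∀ j, MeasurableSet (B j) := by
    rintro (k | k)
    · exact hA.inter (measurableSet_le measurable_const (hL.coe_nnreal_ennreal.add_const _))
    · exact measurableSet_lt hL.coe_nnreal_ennreal measurable_const
  have hF : ∀ j, NullMeasurableSet (F j) μ := by
    rintro (k | k)
    · exact (hit_nullMeasurable hX μ (hB _)).inter (hS.nullMeasurable measurableSet_Iio)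
    · exact (hit_nullMeasurable hX μ (hB _)).inter
        ((hit_nullMeasurable hX μ hA).compl.inter (hm.nullMeasurable measurableSet_Ici))
  have hFB : ∀ j, F j ⊆ hit X (B j) := by
    rintro (k | k) <;> exact inter_subset_left
  have hcov : ∀ᵐ ω ∂μ, ∃ j, ω ∈ F j := by
    filter_upwards [hmfin, hSfin] with ω h1 h2
    by_cases h : ω ∈ hit X A
    · obtain ⟨k, hk1, hk2⟩ := exists_step (supL X L A ω) ε h2.ne hε
      refine ⟨Sum.inl k, ?_, hk2⟩
      by_contra hcon
      obtain ⟨x0, hx0⟩ := id h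
      have h3 : supL X L A ω + ε ≤ k * ε := by
        unfold supL
        have : Nonempty (X ω ∩ A : Set E) := ⟨⟨x0, hx0⟩⟩
        rw [← iSup_subtype'', ENNReal.iSup_add]
        refine iSup_le fun x => ?_
        by_contra hlt
        exact hcon ⟨x, x.2.1, x.2.2, (not_le.mp hlt).le⟩
      have h4 : supL X L A ω < supL X L A ω + ε := ENNReal.lt_add_right h2.ne hε
      exact absurd (h3.trans hk1) (not_le.mpr h4)
    · obtain ⟨k, hk1, hk2⟩ := exists_step (infL X L ω) ε h1.ne hε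
      refine ⟨Sum.inr k, ?_, h, hk1⟩
      have : ω ∈ infL X L ⁻¹' Iio ((k + 1) * ε) := hk2
      rwa [infL_lt] at this
  obtain ⟨ξ, hξ, hsel⟩ := select_rel hX μ F B hF hB hFB hcov
  refine ⟨μ.map ξ, ⟨ξ, hξ, hsel.mono fun ω ⟨j, _, h⟩ => h.1, rfl⟩, ?_, ?_⟩
  · rw [setLIntegral_map_eq μ hL hξ hA]
    have e : ∫⁻ ω, A.indicator (fun x => (L x : ℝ≥0∞)) (ξ ω) ∂μ + 2 * ε
        = ∫⁻ ω, (A.indicator (fun x => (L x : ℝ≥0∞)) (ξ ω) + 2 * ε) ∂μ := by
      rw [lintegral_add_right _ measurable_const]; simp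
    rw [e]
    apply lintegral_mono_ae
    filter_upwards [hsel] with ω ⟨j, h1, h2⟩
    rcases j with k | k
    · rw [indicator_of_mem h2.2.1]
      have a1 : supL X L A ω < (k + 1) * ε := h1.2
      have a2 : k * ε ≤ (L (ξ ω) : ℝ≥0∞) + ε := h2.2.2
      calc supL X L A ω ≤ (k + 1) * ε := a1.le
        _ = k * ε + ε := by rw [add_mul, one_mul]
        _ ≤ L (ξ ω) + ε + ε := add_le_add a2 le_rfl
        _ = L (ξ ω) + 2 * ε := by rw [two_mul, add_assoc]
    · rw [supL_of_not_hit X L A ω h1.2.1]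
      exact zero_le
  · rw [lintegral_map hL.coe_nnreal_ennreal hξ]
    have e : ∫⁻ ω, supL X L A ω ∂μ + ∫⁻ ω, missL X L A ω ∂μ + 2 * ε
        = ∫⁻ ω, (supL X L A ω + missL X L A ω + 2 * ε) ∂μ := by
      rw [lintegral_add_right _ measurable_const, lintegral_add_left' hS]; simp
    rw [e]
    apply lintegral_mono_ae
    filter_upwards [hsel] with ω ⟨j, h1, h2⟩
    rcases j with k | k
    · exact (le_supL X L A ω ⟨h2.1, h2.2.1⟩).trans (le_self_add.trans le_self_add)
    · have a1 : (L (ξ ω) : ℝ≥0∞) < (k + 1) * ε := h2.2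
      have a2 : k * ε ≤ infL X L ω := h1.2.2
      rw [missL, indicator_of_mem h1.2.1]
      calc (L (ξ ω) : ℝ≥0∞) ≤ (k + 1) * ε := a1.le
        _ = k * ε + ε := by rw [add_mul, one_mul]
        _ ≤ infL X L ω + 2 * ε := add_le_add a2 (by rw [two_mul]; exact le_self_add)
        _ ≤ supL X L A ω + infL X L ω + 2 * ε := add_le_add le_add_self le_rfl

theorem ratio_le_upperE_fin {X : Ω → Set E} (hX : IsRandomClosedSet X) (μ : Measure Ω)
    [IsProbabilityMeasure μ] {L : E → ℝ≥0} (hL : Measurable L) {C : Set (Measure E)}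
    (hsub : selectionLaws μ X ⊆ C) {A : Set E} (hA : MeasurableSet A)
    (hc : ∫⁻ ω, infL X L ω ∂μ ≠ ∞) (hs : ∫⁻ ω, supL X L A ω ∂μ ≠ ∞) :
    (∫⁻ ω, supL X L A ω ∂μ) / (∫⁻ ω, supL X L A ω ∂μ + ∫⁻ ω, missL X L A ω ∂μ)
      ≤ upperE C L A := by
  have ht : ∫⁻ ω, missL X L A ω ∂μ ≠ ∞ :=
    ne_top_of_le_ne_top hc (lintegral_mono fun ω => missL_le X L _ ω)
  have hno := near_optimal hX μ hL hA hc hs
  generalize ∫⁻ ω, supL X L A ω ∂μ = s at *
  generalize ∫⁻ ω, missL X L A ω ∂μ = t at *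
  rcases eq_or_ne s 0 with h0 | h0
  · simp [h0]
  have t0 : Tendsto (fun n : ℕ => 2 * (n : ℝ≥0∞)⁻¹) atTop (𝓝 0) := by
    have := ENNReal.Tendsto.const_mul (a := 2) ENNReal.tendsto_inv_nat_nhds_zero
      (Or.inr (by simp))
    simpa using this
  have t1 := ENNReal.Tendsto.sub (tendsto_const_nhds (x := s)) t0 (Or.inl hs)
  have t2 := t0.const_add (s + t)
  rw [tsub_zero] at t1
  rw [add_zero] at t2
  have t3 := ENNReal.Tendsto.div t1 (Or.inl h0) t2 (Or.inr hs)
  refine le_of_tendsto t3 ?_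
  filter_upwards [t0.eventually (gt_mem_nhds (pos_iff_ne_zero.mpr h0)), eventually_gt_atTop 0]
    with n hn hn0
  have hfin : (n : ℝ≥0∞)⁻¹ ≠ ∞ := by simpa using hn0.ne'
  obtain ⟨P, hP, h1, h2⟩ := hno (n : ℝ≥0∞)⁻¹ (by simp)
  have h3 : s - 2 * (n : ℝ≥0∞)⁻¹ ≤ ∫⁻ x in A, L x ∂P := tsub_le_iff_right.mpr h1
  have h4 : 0 < s - 2 * (n : ℝ≥0∞)⁻¹ := tsub_pos_of_lt hn
  refine le_trans (ENNReal.div_le_div h3 h2) ?_
  refine le_iSup₂_of_le (f := fun P (_ : P ∈ {P ∈ C | 0 < ∫⁻ x, L x ∂P ∧ ∫⁻ x, L x ∂P < ∞}) =>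
    (∫⁻ x in A, L x ∂P) / ∫⁻ x, L x ∂P) P ⟨hsub hP, ?_, ?_⟩ le_rfl
  · exact h4.trans_le (h3.trans (setLIntegral_le_lintegral _ _))
  · refine h2.trans_lt ?_
    exact ENNReal.add_lt_top.mpr ⟨ENNReal.add_lt_top.mpr ⟨hs.lt_top, ht.lt_top⟩,
      (ENNReal.mul_ne_top (by simp) hfin).lt_top⟩

theorem ratio_le_upperE {X : Ω → Set E} (hX : IsRandomClosedSet X) (μ : Measure Ω)
    [IsProbabilityMeasure μ] {L : E → ℝ≥0} (hL : Measurable L) {C : Set (Measure E)}
    (hsub : selectionLaws μ X ⊆ C) {A : Set E} (hA : MeasurableSet A)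
    (hc : ∫⁻ ω, infL X L ω ∂μ ≠ ∞) : ratio μ X L A ≤ upperE C L A := by
  unfold ratio
  split_ifs with hs
  swap
  · exact ratio_le_upperE_fin hX μ hL hsub hA hc hs
  let A' : ℕ → Set E := fun n => A ∩ {x | (L x : ℝ≥0∞) ≤ n}
  have hA' : ∀ n, MeasurableSet (A' n) := fun n =>
    hA.inter (measurableSet_le hL.coe_nnreal_ennreal measurable_const)
  have hfin : ∀ n, ∫⁻ ω, supL X L (A' n) ω ∂μ ≠ ∞ := by
    intro n
    refine ne_top_of_le_ne_top (b := n) (by simp) ?_
    calc ∫⁻ ω, supL X L (A' n) ω ∂μ ≤ ∫⁻ _ω, (n : ℝ≥0∞) ∂μ :=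
          lintegral_mono fun ω => iSup₂_le fun x hx => hx.2.2
      _ = n := by simp
  have hsup : ⨆ n, ∫⁻ ω, supL X L (A' n) ω ∂μ = ∞ := by
    rw [← lintegral_iSup' (fun n => supL_aemeasurable hX μ hL (hA' n))]
    · rw [eq_top_iff, ← hs]
      refine lintegral_mono fun ω => iSup₂_le fun x hx => ?_
      obtain ⟨n, hn⟩ := exists_nat_ge (L x)
      exact le_iSup_of_le n (le_supL X L _ ω ⟨hx.1, hx.2, by
        change (L x : ℝ≥0∞) ≤ n
        exact_mod_cast hn⟩)
    · refine Eventually.of_forall fun ω n n' h => iSup₂_le fun x hx =>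
        le_supL X L _ ω ⟨hx.1, hx.2.1, ?_⟩
      have h1 : (L x : ℝ≥0∞) ≤ n := hx.2.2
      exact h1.trans (Nat.cast_le.mpr h)
  obtain ⟨c, hcdef⟩ : ∃ c : ℝ≥0, (c : ℝ≥0∞) = ∫⁻ ω, infL X L ω ∂μ := ⟨_, ENNReal.coe_toNNReal hc⟩
  have t1 : Tendsto (fun n : ℕ => (((n : ℝ≥0) / (n + c) : ℝ≥0) : ℝ≥0∞)) atTop (𝓝 1) := by
    have := ENNReal.tendsto_coe.mpr (tendsto_natCast_div_add_atTop c)
    simpa only [ENNReal.coe_one] using this
  refine le_of_tendsto t1 ?_
  filter_upwards [eventually_gt_atTop 0] with K hK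
  have hlt : (K : ℝ≥0∞) < ⨆ n, ∫⁻ ω, supL X L (A' n) ω ∂μ := by rw [hsup]; simp
  obtain ⟨n, hn⟩ := lt_iSup_iff.mp hlt
  have hpos : (K : ℝ≥0) + c ≠ 0 := by
    have : (0 : ℝ≥0) < K := by exact_mod_cast hK
    positivity
  rw [ENNReal.coe_div hpos, ENNReal.coe_add, ENNReal.coe_natCast, hcdef]
  refine le_trans (ratio_mono _ _ _ _ hn.le (lintegral_mono fun ω => missL_le X L (A' n) ω)
    (hfin n)) ?_
  exact (ratio_le_upperE_fin hX μ hL hsub (hA' n) hc (hfin n)).trans
    (upperE_mono C L inter_subset_left)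

theorem alternating_of_dominated {X : Ω → Set E} (hX : IsRandomClosedSet X) (μ : Measure Ω)
    [IsProbabilityMeasure μ] {L : E → ℝ≥0} (hL : Measurable L) {C : Set (Measure E)}
    (hsub : selectionLaws μ X ⊆ C) (hdom : Dominated μ X L C) (n : ℕ) (hn : 1 ≤ n) :
    IsAlternating n (postUpper C L) := by
  intro A hA
  have hpu : ∀ B, postUpper C L B = (upperE C L B).toReal := fun B => rfl
  rcases eq_or_ne (∫⁻ ω, infL X L ω ∂μ) ∞ with hc | hc
  · simp [hpu, upperE_eq_zero μ X L hdom hc]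
  let T : Finset (Fin n) → Set E := fun I => (⋂ i, A i) ∪ ⋃ i ∈ I, A i
  have hT : ∀ I, MeasurableSet (T I) := fun I =>
    (MeasurableSet.iInter hA).union (Finset.measurableSet_biUnion I fun i _ => hA i)
  have hTu : ∀ I J, T (I ⊔ J) = T I ∪ T J := by
    intro I J
    simp only [T, Finset.sup_eq_union, Finset.set_biUnion_union]
    ext x
    simp only [mem_union]
    tauto
  have hCM := (ratio_CM hX μ hL hc T hT hTu).powerset Finset.univ
  have hv : ∀ I, (ratio μ X L (T I)).toReal = postUpper C L (T I) := fun I => by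
    rw [hpu, le_antisymm (upperE_le_ratio μ X L hdom (hT I))
      (ratio_le_upperE hX μ hL hsub (hT I) hc)]
  simp only [hv, mul_sub, mul_one, Finset.sum_sub_distrib] at hCM
  have hne : (Finset.univ : Finset (Fin n)).Nonempty := ⟨⟨0, hn⟩, Finset.mem_univ _⟩
  have h0 : ∑ I ∈ (Finset.univ : Finset (Fin n)).powerset, (-1 : ℝ) ^ I.card = 0 := by
    exact_mod_cast Finset.sum_powerset_neg_one_pow_card_of_nonempty hne
  rw [h0, Finset.powerset_univ, ← Finset.sum_filter_add_sum_filter_not _ (fun I => I.Nonempty)]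
    at hCM
  have h1 : (Finset.univ : Finset (Finset (Fin n))).filter (fun I => ¬I.Nonempty) = {∅} := by
    ext I; simp
  have h2 : T ∅ = ⋂ i, A i := by simp [T]
  rw [h1, Finset.sum_singleton, h2] at hCM
  have h3 : ∑ I ∈ (Finset.univ : Finset (Finset (Fin n))).filter (fun I => I.Nonempty),
      (-1 : ℝ) ^ (I.card + 1) * postUpper C L (⋃ i ∈ I, A i)
      = -∑ I ∈ (Finset.univ : Finset (Finset (Fin n))).filter (fun I => I.Nonempty),
        (-1 : ℝ) ^ I.card * postUpper C L (T I) := by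
    rw [← Finset.sum_neg_distrib]
    apply Finset.sum_congr rfl
    intro I hI
    obtain ⟨i, hi⟩ := (Finset.mem_filter.mp hI).2
    have : T I = ⋃ i ∈ I, A i :=
      union_eq_self_of_subset_left fun x hx => mem_biUnion hi (mem_iInter.mp hx i)
    rw [this]
    ring
  rw [h3]
  simp only [Finset.card_empty, pow_zero, one_mul] at hCM
  linarith

end Pool.Agent.MP_bae362_pr

end
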